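import Pool.Agent.H44.NB.Gen2
import Pool.Agent.H44.NB.MW
import Pool.Agent.H44.NB.SW
import Pool.Agent.H44.NB.K2

/-!
# Almost all algebraic numbers contain all short blocks among their first digits

The lemmas MW, SW, K2 are by helpers 761, 674, 804.
-/

set_option autoImplicit false

namespace Pool.Agent.Results.MP_a78fe8_nt.ShortBlocksUpToHeight

open Finset Polynomial Pool.Agent.Results.MP_c307ca_nt.AlmostAllToHeight Pool.Agent.H44.NB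

/-- strings of length `N` missing a block of length at most half of `log_b N` -/
def Bad (b N : ℕ) : Finset ℕ :=
  ((Icc 1 N).filter (fun k => b ^ (2 * k) ≤ N)).biUnion fun k => (range (b ^ k)).biUnion fun v =>
    (range (b ^ N)).filter (fun m => ∀ j < N / k, (m / b ^ (j * k)) % b ^ k ≠ v)

theorem bad_card (b : ℕ) (hb : 2 ≤ b) : ∃ C : ℝ, 0 ≤ C ∧ ∀ N : ℕ, 1 ≤ N →
    ((Bad b N).card : ℝ) ≤ C / (N : ℝ) ^ 2 * (b : ℝ) ^ N := by
  obtain ⟨C, hC0, hC⟩ := SW b hb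
  refine ⟨C, hC0, fun N hN => ?_⟩
  have hb0 : (0 : ℝ) < b := by
    have : 0 < b := by omega
    exact_mod_cast this
  have h1 : ((Bad b N).card : ℝ) ≤ ∑ k ∈ (Icc 1 N).filter (fun k => b ^ (2 * k) ≤ N),
      ∑ _v ∈ range (b ^ k), (((b : ℝ) ^ k - 1) ^ (N / k) * (b : ℝ) ^ (N - k * (N / k))) := by
    unfold Bad
    refine card_biUnion_real' _ _ _ fun k hk => card_biUnion_real' _ _ _ fun v hv => ?_
    rw [Finset.mem_filter, Finset.mem_Icc] at hk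
    have h2 := MW b k N v hb hk.1.1 (Finset.mem_range.mp hv)
    have h3 : (1 : ℕ) ≤ b ^ k := Nat.one_le_iff_ne_zero.mpr (by positivity)
    have h4 : (((b ^ k - 1 : ℕ)) : ℝ) = (b : ℝ) ^ k - 1 := by
      rw [Nat.cast_sub h3]
      push_cast
      ring
    calc _ ≤ (((b ^ k - 1) ^ (N / k) * b ^ (N - k * (N / k)) : ℕ) : ℝ) := Nat.cast_le.mpr h2
      _ = _ := by
        rw [Nat.cast_mul, Nat.cast_pow, h4, Nat.cast_pow]
  refine h1.trans ?_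
  have h5 : ∀ k ∈ (Icc 1 N).filter (fun k => b ^ (2 * k) ≤ N),
      ∑ _v ∈ range (b ^ k), (((b : ℝ) ^ k - 1) ^ (N / k) * (b : ℝ) ^ (N - k * (N / k))) =
      ((b : ℝ) ^ k * (1 - 1 / (b : ℝ) ^ k) ^ (N / k)) * (b : ℝ) ^ N := by
    intro k _
    rw [Finset.sum_const, Finset.card_range, nsmul_eq_mul]
    push_cast
    have h6 : k * (N / k) ≤ N := Nat.mul_div_le N k
    have h7 : (b : ℝ) ^ N = ((b : ℝ) ^ k) ^ (N / k) * (b : ℝ) ^ (N - k * (N / k)) := by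
      rw [← pow_mul, ← pow_add]
      congr 1
      omega
    have h8 : ((b : ℝ) ^ k - 1) = (1 - 1 / (b : ℝ) ^ k) * (b : ℝ) ^ k := by
      field_simp
    rw [h7, h8, mul_pow]
    ring
  rw [Finset.sum_congr rfl h5, ← Finset.sum_mul]
  exact mul_le_mul_of_nonneg_right (hC N hN) (by positivity)

theorem bad_mem (b : ℕ) (hb : 2 ≤ b) (ξ : ℝ) (N k v : ℕ) (hk1 : 1 ≤ k) (hkN : b ^ (2 * k) ≤ N)
    (hv : v < b ^ k)
    (hno : ∀ m : ℕ, m + k ≤ N → ⌊ξ * (b : ℝ) ^ (m + k)⌋ % ((b : ℤ) ^ k) ≠ (v : ℤ)) :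
    (⌊ξ * (b : ℝ) ^ N⌋ % ((b : ℤ) ^ N)).toNat ∈ Bad b N := by
  have hbN : (0 : ℤ) < (b : ℤ) ^ N := by
    have : 0 < b ^ N := Nat.pow_pos (by omega)
    exact_mod_cast this
  have hkk : k ≤ N := by
    have h1 : 2 * k < b ^ (2 * k) := Nat.lt_pow_self (by omega)
    omega
  unfold Bad
  rw [Finset.mem_biUnion]
  refine ⟨k, ?_, ?_⟩
  · rw [Finset.mem_filter, Finset.mem_Icc]
    exact ⟨⟨hk1, hkk⟩, hkN⟩
  rw [Finset.mem_biUnion]
  refine ⟨v, Finset.mem_range.mpr hv, ?_⟩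
  rw [Finset.mem_filter, Finset.mem_range]
  refine ⟨?_, ?_⟩
  · have h8 := Int.emod_lt_of_pos ⌊ξ * (b : ℝ) ^ N⌋ hbN
    have h9 := Int.emod_nonneg ⌊ξ * (b : ℝ) ^ N⌋ hbN.ne'
    have h10 : ((⌊ξ * (b : ℝ) ^ N⌋ % (b : ℤ) ^ N).toNat : ℤ) < ((b ^ N : ℕ) : ℤ) := by
      rw [Int.toNat_of_nonneg h9]
      push_cast
      exact h8
    exact_mod_cast h10
  · intro j hj hcon
    have h11 : (j + 1) * k ≤ N := by
      have h12 : (j + 1) * k ≤ (N / k) * k := Nat.mul_le_mul_right k hj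
      exact h12.trans (Nat.div_mul_le_self N k)
    have h13 : j * k + k ≤ N := by
      have : (j + 1) * k = j * k + k := by ring
      omega
    have h14 := K2 b hb ξ N (N - j * k) k (by omega) (by omega)
    rw [show N - (N - j * k) = j * k by omega, hcon] at h14
    apply hno (N - j * k - k) (by omega)
    rw [show N - j * k - k + k = N - j * k by omega]
    exact h14

/-- **Almost all real algebraic numbers contain all short blocks among their first digits.** -/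
theorem result (d : ℕ) (hd : 2 ≤ d) (b : ℕ) (hb : 2 ≤ b) (η : ℝ) (hη : 0 < η) :
    ∃ n₀ : ℕ, ∀ H : ℕ, 1 ≤ H →
      {ξ : ℝ | (∃ P : Polynomial ℤ, P.natDegree = d ∧ (∀ i, |P.coeff i| ≤ (H : ℤ)) ∧
          Irreducible (P.map (Int.castRingHom ℚ)) ∧ Polynomial.aeval ξ P = 0) ∧
        ∃ N : ℕ, n₀ ≤ N ∧ b ^ N ≤ H ∧ ∃ k : ℕ, 1 ≤ k ∧ b ^ (2 * k) ≤ N ∧ ∃ v : ℕ, v < b ^ k ∧
          ∀ m : ℕ, m + k ≤ N → ⌊ξ * (b : ℝ) ^ (m + k)⌋ % ((b : ℤ) ^ k) ≠ (v : ℤ)}.Finite ∧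
      ({ξ : ℝ | (∃ P : Polynomial ℤ, P.natDegree = d ∧ (∀ i, |P.coeff i| ≤ (H : ℤ)) ∧
          Irreducible (P.map (Int.castRingHom ℚ)) ∧ Polynomial.aeval ξ P = 0) ∧
        ∃ N : ℕ, n₀ ≤ N ∧ b ^ N ≤ H ∧ ∃ k : ℕ, 1 ≤ k ∧ b ^ (2 * k) ≤ N ∧ ∃ v : ℕ, v < b ^ k ∧
          ∀ m : ℕ, m + k ≤ N → ⌊ξ * (b : ℝ) ^ (m + k)⌋ % ((b : ℤ) ^ k) ≠ (v : ℤ)}.ncard : ℝ) ≤
        η * (H : ℝ) ^ (d + 1) := by
  classical
  obtain ⟨C, hC0, hC⟩ := bad_card b hb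
  have hd0 : (0 : ℝ) < d := by
    have : 0 < d := by omega
    exact_mod_cast this
  set T : ℕ := ⌈4 * (d : ℝ) * 3 ^ d / η⌉₊ + 2 with hTdef
  have hT : 2 ≤ T := by omega
  have hT1 : 4 * (d : ℝ) * 3 ^ d / η ≤ (T : ℝ) - 1 := by
    have h1 := Nat.le_ceil (4 * (d : ℝ) * 3 ^ d / η)
    rw [hTdef]
    push_cast
    linarith
  have hT2 : (2 : ℝ) ≤ T := by exact_mod_cast hT
  have hT3 : (0 : ℝ) < (T : ℝ) - 1 := by linarith
  have hTη : 2 * 3 ^ d / ((T : ℝ) - 1) ≤ η / (2 * d) := by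
    rw [div_le_iff₀ hη] at hT1
    rw [div_le_div_iff₀ hT3 (by positivity)]
    nlinarith
  have hK0 := KK_nonneg d T
  set Z : ℝ := ((2 * T + 3) * (2 * KK d T * 4 ^ d)) with hZ
  have hZ0 : 0 ≤ Z := by rw [hZ]; positivity
  set n₀ : ℕ := ⌈4 * (d : ℝ) * (Z * C) / η⌉₊ + 1 with hn₀def
  have hn₀1 : 1 ≤ n₀ := by omega
  have hn₀R : 4 * (d : ℝ) * (Z * C) / η ≤ n₀ := by
    have h1 := Nat.le_ceil (4 * (d : ℝ) * (Z * C) / η)
    rw [hn₀def]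
    push_cast
    linarith
  have hn₀pos : (0 : ℝ) < n₀ := by exact_mod_cast hn₀1
  have hτ : ∀ M : ℕ, ∑ N ∈ Finset.Ico n₀ M, C / (N : ℝ) ^ 2 ≤ C * (2 / n₀) := by
    intro M
    have h1 := sum_Ioo_inv_sq_le (α := ℝ) (n₀ - 1) M
    have h2 : Finset.Ico n₀ M = Finset.Ioo (n₀ - 1) M := by
      ext x
      rw [Finset.mem_Ico, Finset.mem_Ioo]
      omega
    have h3 : (((n₀ - 1 : ℕ) : ℝ) + 1) = n₀ := by
      rw [Nat.cast_sub hn₀1]
      push_cast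
      ring
    rw [h3] at h1
    rw [h2]
    simp only [div_eq_mul_inv]
    rw [← Finset.mul_sum]
    exact mul_le_mul_of_nonneg_left (by simpa [div_eq_mul_inv] using h1) hC0
  have hcZ : Z * (C * (2 / n₀)) ≤ η / (2 * d) := by
    rw [div_le_iff₀ hη] at hn₀R
    rw [show Z * (C * (2 / (n₀ : ℝ))) = (2 * (Z * C)) / n₀ by ring,
      div_le_div_iff₀ hn₀pos (by positivity)]
    nlinarith
  refine ⟨n₀, fun H hH => ?_⟩
  set S : Set ℝ := {ξ : ℝ | (∃ P : Polynomial ℤ, P.natDegree = d ∧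
      (∀ i, |P.coeff i| ≤ (H : ℤ)) ∧
          Irreducible (P.map (Int.castRingHom ℚ)) ∧ Polynomial.aeval ξ P = 0) ∧
        ∃ N : ℕ, n₀ ≤ N ∧ b ^ N ≤ H ∧ ∃ k : ℕ, 1 ≤ k ∧ b ^ (2 * k) ≤ N ∧ ∃ v : ℕ, v < b ^ k ∧
          ∀ m : ℕ, m + k ≤ N → ⌊ξ * (b : ℝ) ^ (m + k)⌋ % ((b : ℤ) ^ k) ≠ (v : ℤ)} with hS
  set BB : Finset (Fin (d + 1) → ℤ) := (box (d + 1) (H : ℤ)).filter (fun v =>
    ∃ P : Polynomial ℤ, (fun i : Fin (d + 1) => P.coeff i) = v ∧ P.natDegree = d ∧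
      (∀ i, |P.coeff i| ≤ (H : ℤ)) ∧ Irreducible (P.map (Int.castRingHom ℚ)) ∧
      ∃ ξ : ℝ, Polynomial.aeval ξ P = 0 ∧ ∃ N : ℕ, n₀ ≤ N ∧ b ^ N ≤ H ∧ ∃ k : ℕ, 1 ≤ k ∧ b ^ (2 * k) ≤ N ∧ ∃ v : ℕ, v < b ^ k ∧
          ∀ m : ℕ, m + k ≤ N → ⌊ξ * (b : ℝ) ^ (m + k)⌋ % ((b : ℤ) ^ k) ≠ (v : ℤ)) with hBB
  have hcount := main_strings2 d b hb (Bad b) (fun N => C / (N : ℝ) ^ 2) (C * (2 / n₀))
    (fun N => by positivity) n₀ (fun N hN => hC N (by omega)) hτ T hT H hH BB (by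
    intro v hv
    rw [hBB, Finset.mem_filter] at hv
    obtain ⟨_, P, hPa, hPd, hPH, hPirr, ξ, hξ, N, hN0, hNH, k, hk1, hkN, w, hw, hno⟩ := hv
    subst hPa
    refine ⟨fun i => hPH i, ?_, ?_, ξ, ?_, N, hN0, hNH, bad_mem b hb ξ N k w hk1 hkN hw hno⟩
    · have h1 : P ≠ 0 := by
        intro h0
        rw [h0, Polynomial.natDegree_zero] at hPd
        omega
      have h2 : P.coeff d ≠ 0 := by
        rw [← hPd]
        exact Polynomial.leadingCoeff_ne_zero.mpr h1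
      simpa using h2
    · intro p' q' _
      rw [ev_eq_aeval d P hPd]
      exact no_rat_root d hd P hPd hPirr p' q'
    · rw [ev_eq_aeval d P hPd]
      exact hξ)
  set U : Finset ℝ := BB.biUnion (fun a => ((polZ a).map (Int.castRingHom ℝ)).roots.toFinset)
    with hU
  have hSU : S ⊆ (U : Set ℝ) := by
    rintro ξ ⟨⟨P, hPd, hPH, hPirr, hξ⟩, hdig⟩
    rw [hU, Finset.mem_coe, Finset.mem_biUnion]
    refine ⟨fun i : Fin (d + 1) => P.coeff i, ?_, ?_⟩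
    · rw [hBB, Finset.mem_filter]
      exact ⟨mem_box fun i => hPH i, P, rfl, hPd, hPH, hPirr, ξ, hξ, hdig⟩
    · rw [polZ_coeff d P hPd, Multiset.mem_toFinset, Polynomial.mem_roots', Polynomial.IsRoot,
        Polynomial.eval_map]
      refine ⟨?_, hξ⟩
      rw [Polynomial.map_ne_zero_iff (RingHom.injective_int (Int.castRingHom ℝ))]
      intro h0
      rw [h0, Polynomial.natDegree_zero] at hPd
      omega
  have hUcard : U.card ≤ BB.card * d := by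
    refine Finset.card_biUnion_le_card_mul _ _ _ fun a ha => ?_
    rw [hBB, Finset.mem_filter] at ha
    obtain ⟨_, P, hPa, hPd, _⟩ := ha
    rw [← hPa, polZ_coeff d P hPd]
    refine (Multiset.toFinset_card_le _).trans ((Polynomial.card_roots' _).trans ?_)
    exact Polynomial.natDegree_map_le.trans hPd.le
  refine ⟨U.finite_toSet.subset hSU, ?_⟩
  have h1 : S.ncard ≤ U.card := by
    rw [← Set.ncard_coe_finset]
    exact Set.ncard_le_ncard hSU U.finite_toSet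
  have h2 : (S.ncard : ℝ) ≤ (BB.card : ℝ) * d := by exact_mod_cast h1.trans hUcard
  refine h2.trans ?_
  have hHp : (0 : ℝ) ≤ (H : ℝ) ^ (d + 1) := by positivity
  calc (BB.card : ℝ) * d ≤ ((H : ℝ) ^ (d + 1) * (2 * 3 ^ d / (T - 1) +
      Z * (C * (2 / n₀)))) * d :=
        mul_le_mul_of_nonneg_right hcount hd0.le
    _ ≤ ((H : ℝ) ^ (d + 1) * (η / (2 * d) + η / (2 * d))) * d := by
        refine mul_le_mul_of_nonneg_right ?_ hd0.le
        exact mul_le_mul_of_nonneg_left (add_le_add hTη hcZ) hHp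
    _ = η * (H : ℝ) ^ (d + 1) := by
        field_simp
        ring

end Pool.Agent.Results.MP_a78fe8_nt.ShortBlocksUpToHeight
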